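import Pool.Agent.X128.CE4

/-!
# Every support-preserving endomorphism of the finitely supported probability measures on `ℤ^d`
# is a Boltzmann reweighting
-/

set_option autoImplicit false

namespace Pool.Agent.Results.MP_847c7e_pr.Reweightings

open Finset
open Pool.Agent.X128

/-- A finitely supported probability measure on `ℤ^d`. -/
structure Prob (d : ℕ) where
  /-- the mass function -/
  mass : (Fin d → ℤ) → ℝ
  nonneg : ∀ x, 0 ≤ mass x
  finite : (Function.support mass).Finite
  total : ∑ᶠ x, mass x = 1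

variable {d : ℕ}

lemma Prob.ext {μ ν : Prob d} (h : μ.mass = ν.mass) : μ = ν := by
  cases μ; cases ν; cases h; rfl

/-- the element of the group algebra -/
noncomputable def toA (μ : Prob d) : AddMonoidAlgebra ℝ (Fin d → ℤ) :=
  AddMonoidAlgebra.ofCoeff (Finsupp.ofSupportFinite μ.mass μ.finite)

lemma toA_coeff (μ : Prob d) (x : Fin d → ℤ) : (toA μ).coeff x = μ.mass x := rfl

/-- the total mass, as a ring homomorphism -/
noncomputable def aug : AddMonoidAlgebra ℝ (Fin d → ℤ) →ₐ[ℝ] ℝ :=
  AddMonoidAlgebra.lift ℝ ℝ (Fin d → ℤ) 1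

lemma aug_apply (f : AddMonoidAlgebra ℝ (Fin d → ℤ)) : aug f = ∑ᶠ x, f.coeff x := by
  have h : (Function.support fun x => f.coeff x) ⊆ (f.coeff.support : Set (Fin d → ℤ)) := by
    intro x hx
    simpa using hx
  rw [aug, AddMonoidAlgebra.lift_apply, Finsupp.sum, finsum_eq_sum_of_support_subset _ h]
  simp

lemma aug_toA (μ : Prob d) : aug (toA μ) = 1 := by
  rw [aug_apply]; exact μ.total

/-- the coefficients of a product -/
lemma coeff_mul' (f g : AddMonoidAlgebra ℝ (Fin d → ℤ)) (x : Fin d → ℤ) :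
    (f * g).coeff x = ∑ᶠ y, f.coeff y * g.coeff (x - y) := by
  have h : (Function.support fun y => f.coeff y * g.coeff (x - y)) ⊆
      (f.coeff.support : Set (Fin d → ℤ)) := by
    intro y hy
    rw [Function.mem_support] at hy
    simpa using left_ne_zero_of_mul hy
  rw [AddMonoidAlgebra.coeff_mul_apply_left, Finsupp.sum, finsum_eq_sum_of_support_subset _ h]
  refine Finset.sum_congr rfl fun y _ => ?_
  rw [neg_add_eq_sub]

/-- The convolution `(μ * ν)(x) = ∑_y μ(y) ν(x - y)`. -/
noncomputable def conv (μ ν : Prob d) : Prob d where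
  mass x := ∑ᶠ y, μ.mass y * ν.mass (x - y)
  nonneg x := finsum_nonneg fun y => mul_nonneg (μ.nonneg y) (ν.nonneg _)
  finite := by
    have h : (fun x => ∑ᶠ y, μ.mass y * ν.mass (x - y)) = fun x => (toA μ * toA ν).coeff x :=
      funext fun x => (coeff_mul' (toA μ) (toA ν) x).symm
    rw [h]
    exact (toA μ * toA ν).coeff.hasFiniteSupport
  total := by
    have h : (fun x => ∑ᶠ y, μ.mass y * ν.mass (x - y)) = fun x => (toA μ * toA ν).coeff x :=
      funext fun x => (coeff_mul' (toA μ) (toA ν) x).symm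
    rw [h, ← aug_apply, map_mul, aug_toA, aug_toA, one_mul]

/-- `Φ` is an endomorphism of the convolution semigroup. -/
def IsEndomorphism (Φ : Prob d → Prob d) : Prop := ∀ μ ν, Φ (conv μ ν) = conv (Φ μ) (Φ ν)

/-- `Φ` preserves the supports. -/
def SupportPreserving (Φ : Prob d → Prob d) : Prop :=
  ∀ μ, Function.support (Φ μ).mass = Function.support μ.mass

lemma toA_conv (μ ν : Prob d) : toA (conv μ ν) = toA μ * toA ν := by
  apply AddMonoidAlgebra.ext
  ext x
  rw [coeff_mul']
  rfl

lemma aug_pos {f : AddMonoidAlgebra ℝ (Fin d → ℤ)} (hf : CE.Nn f) : 0 < aug f := by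
  rw [aug_apply]
  have hne : ∃ x, f.coeff x ≠ 0 := by
    by_contra h
    push Not at h
    exact hf.2 (AddMonoidAlgebra.ext (Finsupp.ext h))
  obtain ⟨x, hx⟩ := hne
  refine finsum_pos (fun y => hf.1 y) ⟨x, lt_of_le_of_ne (hf.1 x) (Ne.symm hx)⟩ ?_
  exact f.coeff.hasFiniteSupport

/-- the normalised measure of a nonnegative element -/
noncomputable def nrm (f : AddMonoidAlgebra ℝ (Fin d → ℤ)) (hf : CE.Nn f) : Prob d where
  mass x := f.coeff x / aug f
  nonneg x := div_nonneg (hf.1 x) (aug_pos hf).le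
  finite := by
    refine f.coeff.hasFiniteSupport.subset fun x hx => ?_
    rw [Function.mem_support] at hx ⊢
    intro h
    rw [h, zero_div] at hx
    exact hx rfl
  total := by
    have h : (fun x => f.coeff x / aug f) = fun x => (aug f)⁻¹ * f.coeff x := by
      funext x; rw [div_eq_inv_mul]
    rw [h, ← mul_finsum, ← aug_apply, inv_mul_cancel₀ (aug_pos hf).ne']

lemma nn_toA (μ : Prob d) : CE.Nn (toA μ) := by
  refine ⟨fun x => μ.nonneg x, fun h => ?_⟩
  have := aug_toA μ
  rw [h, map_zero] at this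
  exact zero_ne_one this

lemma nrm_toA (μ : Prob d) (h : CE.Nn (toA μ)) : nrm (toA μ) h = μ := by
  apply Prob.ext
  funext x
  show (toA μ).coeff x / aug (toA μ) = μ.mass x
  rw [aug_toA, div_one, toA_coeff]

lemma nrm_mul {f g : AddMonoidAlgebra ℝ (Fin d → ℤ)} (hf : CE.Nn f) (hg : CE.Nn g)
    (hfg : CE.Nn (f * g)) : nrm (f * g) hfg = conv (nrm f hf) (nrm g hg) := by
  apply Prob.ext
  funext x
  show (f * g).coeff x / aug (f * g) = ∑ᶠ y, f.coeff y / aug f * (g.coeff (x - y) / aug g)
  have h : (fun y => f.coeff y / aug f * (g.coeff (x - y) / aug g)) =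
      fun y => (aug f * aug g)⁻¹ * (f.coeff y * g.coeff (x - y)) := by
    funext y
    have h1 := (aug_pos hf).ne'
    have h2 := (aug_pos hg).ne'
    field_simp
  have hfin : (Function.support fun y => f.coeff y * g.coeff (x - y)).Finite :=
    f.coeff.hasFiniteSupport.subset fun y hy => by
      rw [Function.mem_support] at hy ⊢
      exact left_ne_zero_of_mul hy
  rw [h, ← mul_finsum, ← coeff_mul', map_mul, div_eq_inv_mul]

open Classical in
/-- the induced map of the group algebra -/
noncomputable def FF (Φ : Prob d → Prob d) (f : AddMonoidAlgebra ℝ (Fin d → ℤ)) :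
    AddMonoidAlgebra ℝ (Fin d → ℤ) :=
  if h : CE.Nn f then toA (Φ (nrm f h)) else 0

lemma hyp (Φ : Prob d → Prob d) (h1 : IsEndomorphism Φ) (h2 : SupportPreserving Φ) :
    CE.Hyp (FF Φ) where
  nn f hf := by
    rw [FF, dif_pos hf]
    exact nn_toA _
  supp f hf x := by
    rw [FF, dif_pos hf, toA_coeff]
    have h := h2 (nrm f hf)
    have h3 : (Φ (nrm f hf)).mass x ≠ 0 ↔ (nrm f hf).mass x ≠ 0 := by
      rw [← Function.mem_support, ← Function.mem_support, h]
    rw [← not_iff_not]
    rw [← Ne, h3]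
    show f.coeff x / aug f ≠ 0 ↔ _
    rw [div_ne_zero_iff]
    exact ⟨fun h => h.1, fun h => ⟨h, (aug_pos hf).ne'⟩⟩
  mul f g hf hg := by
    rw [FF, FF, FF, dif_pos (hf.mul hg), dif_pos hf, dif_pos hg, nrm_mul hf hg, h1, toA_conv]

/-- **Answer to Q1.** Every support-preserving endomorphism of the semigroup of finitely supported
probability measures on `ℤ^d` is a Boltzmann reweighting; `d` is arbitrary. -/
theorem result (d : ℕ) (Φ : Prob d → Prob d) (hΦ : IsEndomorphism Φ) (hs : SupportPreserving Φ) :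
    ∃ β : Fin d → ℝ, ∀ (μ : Prob d) (x : Fin d → ℤ),
      (Φ μ).mass x = μ.mass x * Real.exp (-∑ i, β i * x i) /
        ∑ᶠ y : Fin d → ℤ, μ.mass y * Real.exp (-∑ i, β i * y i) := by
  have htf : ∀ (n : ℕ) (x : Fin d → ℤ), n ≠ 0 → x ≠ 0 → n • x ≠ 0 := by
    intro n x hn hx h
    apply hx
    funext i
    have := congrFun h i
    simp only [Pi.smul_apply, nsmul_eq_mul, Pi.zero_apply, mul_eq_zero, Nat.cast_eq_zero] at this
    exact this.resolve_left hn
  obtain ⟨χ, hpos, hmul, hχ⟩ := CE.main htf (hyp Φ hΦ hs)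
  -- the logarithm of the character
  have hχ0 : χ 0 = 1 := by
    have h := hmul 0 0
    rw [add_zero] at h
    have h0 := (hpos 0).ne'
    field_simp at h
    exact h.symm
  let L : (Fin d → ℤ) →+ ℝ :=
    { toFun := fun x => Real.log (χ x)
      map_zero' := by rw [hχ0, Real.log_one]
      map_add' := fun x y => by rw [hmul, Real.log_mul (hpos x).ne' (hpos y).ne'] }
  have hL : ∀ x, L x = ∑ i, (x i : ℝ) * L (Pi.single i 1) := by
    intro x
    have h1 : x = ∑ i, (x i) • (Pi.single i (1 : ℤ) : Fin d → ℤ) := by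
      conv_lhs => rw [← Finset.univ_sum_single x]
      refine Finset.sum_congr rfl fun i _ => ?_
      ext j
      by_cases h : j = i
      · subst h; simp
      · simp [h]
    conv_lhs => rw [h1]
    rw [map_sum]
    refine Finset.sum_congr rfl fun i _ => ?_
    rw [map_zsmul, zsmul_eq_mul]
  have hexp : ∀ x, χ x = Real.exp (-∑ i, (-L (Pi.single i 1)) * (x i : ℝ)) := by
    intro x
    have h1 : -∑ i, (-L (Pi.single i 1)) * (x i : ℝ) = L x := by
      rw [hL, ← Finset.sum_neg_distrib]
      refine Finset.sum_congr rfl fun i _ => ?_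
      ring
    rw [h1]
    exact (Real.exp_log (hpos x)).symm
  refine ⟨fun i => -L (Pi.single i 1), fun μ x => ?_⟩
  simp only [← hexp]
  obtain ⟨c, hc, h⟩ := hχ (toA μ) (nn_toA μ)
  have h2 : ∀ y, (Φ μ).mass y = c * (χ y * μ.mass y) := by
    intro y
    have h3 := h y
    rw [FF, dif_pos (nn_toA μ), nrm_toA, toA_coeff, toA_coeff] at h3
    exact h3
  have hfin : (Function.support fun y => μ.mass y * χ y).Finite :=
    μ.finite.subset fun y hy => by
      rw [Function.mem_support] at hy ⊢
      exact left_ne_zero_of_mul hy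
  have h3 : c * ∑ᶠ y, μ.mass y * χ y = 1 := by
    rw [mul_finsum, ← (Φ μ).total]
    congr 1
    funext y
    rw [h2 y]
    ring
  have h4 : ∑ᶠ y, μ.mass y * χ y ≠ 0 := fun h5 => by
    rw [h5, mul_zero] at h3
    exact zero_ne_one h3
  rw [h2 x, eq_div_iff h4]
  calc c * (χ x * μ.mass x) * ∑ᶠ y, μ.mass y * χ y
      = (c * ∑ᶠ y, μ.mass y * χ y) * (μ.mass x * χ x) := by ring
    _ = μ.mass x * χ x := by rw [h3, one_mul]

end Pool.Agent.Results.MP_847c7e_pr.Reweightings
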